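import Pool.Agent.H90.WC.Basic

/-!
Module E3 of the wandering continuum theorem (problem MP_90715c_gt): a discrete cocompact
subgroup of `SL(2, ℂ)` has no parabolic elements, does not fix a direction and acts minimally on
the directions.  helper73
-/

open Matrix Set Filter Topology

namespace Pool.Agent.H90.WC

set_option linter.unusedSimpArgs false

variable {Γ : Subgroup G} {K : Set (OnePoint ℂ)}

namespace E3

lemma mv0 (g : G) (v : Fin 2 → ℂ) : (g.1 *ᵥ v) 0 = g 0 0 * v 0 + g 0 1 * v 1 := by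
  simp [Matrix.mulVec, dotProduct, Fin.sum_univ_two]

lemma mv1 (g : G) (v : Fin 2 → ℂ) : (g.1 *ᵥ v) 1 = g 1 0 * v 0 + g 1 1 * v 1 := by
  simp [Matrix.mulVec, dotProduct, Fin.sum_univ_two]

lemma mv_mul (g h : G) (v : Fin 2 → ℂ) : (g * h).1 *ᵥ v = g.1 *ᵥ (h.1 *ᵥ v) := by
  rw [Matrix.mulVec_mulVec]
  rfl

lemma ext_v {v w : Fin 2 → ℂ} (h0 : v 0 = w 0) (h1 : v 1 = w 1) : v = w := by
  funext i
  fin_cases i <;> assumption

lemma tube_gen {X Y : Type*} [TopologicalSpace X] [TopologicalSpace Y] (f : X × Y → X)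
    (hf : Continuous f) {U C : Set X} (hU : IsOpen U) (hC : IsCompact C) (y : Y)
    (h1 : ∀ c ∈ C, f (c, y) ∈ U) :
    ∃ W : Set Y, IsOpen W ∧ y ∈ W ∧ ∀ c ∈ C, ∀ x ∈ W, f (c, x) ∈ U := by
  obtain ⟨u, v, hu, hv, hCu, h1v, huv⟩ := generalized_tube_lemma hC
    (isCompact_singleton (x := y)) (hU.preimage hf) (by
      rintro ⟨c, x⟩ ⟨hc, hx⟩
      have hx' : x = y := hx
      rw [hx']
      exact h1 c hc)
  refine ⟨v, hv, h1v rfl, fun c hc x hx => ?_⟩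
  have h2 : (c, x) ∈ u ×ˢ v := ⟨hCu hc, hx⟩
  exact huv h2

lemma tube_aux {U C : Set G} (hU : IsOpen U) (h1U : (1 : G) ∈ U) (hC : IsCompact C) :
    ∃ W : Set G, IsOpen W ∧ (1 : G) ∈ W ∧ ∀ c ∈ C, ∀ x ∈ W, c * x * c⁻¹ ∈ U := by
  have hcont : Continuous fun p : G × G => p.1 * p.2 * p.1⁻¹ :=
    (continuous_fst.mul continuous_snd).mul continuous_fst.inv
  obtain ⟨W, h1, h2, h3⟩ := tube_gen (fun p : G × G => p.1 * p.2 * p.1⁻¹) hcont hU hC 1 (by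
    intro c _
    simp only [mul_one, mul_inv_cancel]
    exact h1U)
  exact ⟨W, h1, h2, h3⟩

/-- An element whose conjugates come close to the identity is trivial. -/
lemma eq_one_of_conj (h : Hyp Γ K) {γ : G} (hγ : γ ∈ Γ)
    (hc : ∀ W ∈ 𝓝 (1 : G), ∃ g : G, g⁻¹ * γ * g ∈ W) : γ = 1 := by
  obtain ⟨U, hU, h1U, hUΓ⟩ := h.disc
  obtain ⟨C, hC, hcoc⟩ := h.coc
  obtain ⟨W, hW, h1W, hWU⟩ := tube_aux hU h1U hC
  obtain ⟨g, hg⟩ := hc W (hW.mem_nhds h1W)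
  obtain ⟨γ', hγ', hγC⟩ := hcoc g
  have h2 := hWU _ hγC _ hg
  have h3 : (γ' * g) * (g⁻¹ * γ * g) * (γ' * g)⁻¹ = γ' * γ * γ'⁻¹ := by group
  rw [h3] at h2
  have h4 := hUΓ _ (Γ.mul_mem (Γ.mul_mem hγ' hγ) (Γ.inv_mem hγ')) h2
  have h5 : γ = γ'⁻¹ * (γ' * γ * γ'⁻¹) * γ' := by group
  rw [h5, h4]
  group

/-- A frame with given first column. -/
lemma exists_frame {v : Fin 2 → ℂ} (hv : v ≠ 0) : ∃ p : G, p 0 0 = v 0 ∧ p 1 0 = v 1 := by
  by_cases h0 : v 0 = 0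
  · have h1 : v 1 ≠ 0 := fun h1 => hv (ext_v h0 h1)
    refine ⟨⟨!![v 0, -(v 1)⁻¹; v 1, 0], ?_⟩, rfl, rfl⟩
    rw [Matrix.det_fin_two_of]
    field_simp
    ring
  · refine ⟨⟨!![v 0, 0; v 1, (v 0)⁻¹], ?_⟩, rfl, rfl⟩
    rw [Matrix.det_fin_two_of]
    field_simp
    ring

/-- The diagonal matrix. -/
noncomputable def dg (s : ℝ) (hs : s ≠ 0) : G :=
  ⟨!![(s : ℂ), 0; 0, (s : ℂ)⁻¹], by
    rw [Matrix.det_fin_two_of]; simp [hs]⟩

@[simp] lemma dg_00 (s : ℝ) (hs : s ≠ 0) : dg s hs 0 0 = s := rfl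
@[simp] lemma dg_01 (s : ℝ) (hs : s ≠ 0) : dg s hs 0 1 = 0 := rfl
@[simp] lemma dg_10 (s : ℝ) (hs : s ≠ 0) : dg s hs 1 0 = 0 := rfl
@[simp] lemma dg_11 (s : ℝ) (hs : s ≠ 0) : dg s hs 1 1 = (s : ℂ)⁻¹ := rfl

/-- The unipotent matrix. -/
noncomputable def up (y : ℂ) : G :=
  ⟨!![1, y; 0, 1], by rw [Matrix.det_fin_two_of]; simp⟩

@[simp] lemma up_00 (y : ℂ) : up y 0 0 = 1 := rfl
@[simp] lemma up_01 (y : ℂ) : up y 0 1 = y := rfl
@[simp] lemma up_10 (y : ℂ) : up y 1 0 = 0 := rfl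
@[simp] lemma up_11 (y : ℂ) : up y 1 1 = 1 := rfl

lemma conj_10 {p γ : G} {c : ℂ} {v : Fin 2 → ℂ} (h0 : p 0 0 = v 0) (h1 : p 1 0 = v 1)
    (hc : γ.1 *ᵥ v = c • v) : (p⁻¹ * γ * p) 1 0 = 0 := by
  have e0 := congrFun hc 0
  have e1 := congrFun hc 1
  rw [mv0] at e0
  rw [mv1] at e1
  simp only [Pi.smul_apply, smul_eq_mul] at e0 e1
  rw [mul_assoc, mul_10, mul_00, mul_10, inv_10, inv_11, h0, h1, e0, e1, ← h0, ← h1]
  ring

/-- A unipotent upper triangular element can be conjugated towards the identity. -/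
lemma conj_small {γ p : G} (h10 : (p⁻¹ * γ * p) 1 0 = 0) (h00 : (p⁻¹ * γ * p) 0 0 = 1) :
    ∀ W ∈ 𝓝 (1 : G), ∃ g : G, g⁻¹ * γ * g ∈ W := by
  intro W hW
  obtain ⟨δ, hδ⟩ : ∃ δ : G, δ = p⁻¹ * γ * p := ⟨_, rfl⟩
  rw [← hδ] at h10 h00
  have h11 : δ 1 1 = 1 := by
    have := det_eq δ
    rw [h10, h00] at this
    simpa using this
  have key : Tendsto (fun n : ℕ => (dg ((n : ℝ) + 1) (by positivity))⁻¹ * δ *
      dg ((n : ℝ) + 1) (by positivity)) atTop (𝓝 (1 : G)) := by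
    rw [tendsto_iff]
    have hlim : Tendsto (fun n : ℕ => δ 0 1 * ((((n : ℝ) + 1 : ℝ) : ℂ)⁻¹ *
        (((n : ℝ) + 1 : ℝ) : ℂ)⁻¹)) atTop (𝓝 0) := by
      have e1 : Tendsto (fun n : ℕ => (((n : ℝ) + 1 : ℝ) : ℂ)⁻¹) atTop (𝓝 0) := by
        have e2 : Tendsto (fun n : ℕ => ((n : ℝ) + 1)⁻¹) atTop (𝓝 0) :=
          tendsto_inv_atTop_zero.comp (tendsto_atTop_add_const_right _ _
            tendsto_natCast_atTop_atTop)
        have e3 := (Complex.continuous_ofReal.tendsto 0).comp e2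
        simp only [Complex.ofReal_zero] at e3
        refine e3.congr fun n => ?_
        simp
      have := (e1.mul e1).const_mul (δ 0 1)
      simpa using this
    intro i j
    fin_cases i <;> fin_cases j
    · simp only [Fin.zero_eta, Fin.isValue]
      refine tendsto_const_nhds.congr fun n => ?_
      rw [mul_assoc, mul_00, mul_00, mul_10, inv_00, inv_01, h00, h10]
      have : (((n : ℝ) + 1 : ℝ) : ℂ) ≠ 0 := by
        exact_mod_cast (by positivity : (n : ℝ) + 1 ≠ 0)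
      simp only [dg_00, dg_01, dg_10, dg_11]
      field_simp
      simp
    · simp only [Fin.zero_eta, Fin.mk_one, Fin.isValue]
      refine hlim.congr fun n => ?_
      rw [mul_assoc, mul_01, mul_01, mul_11, inv_00, inv_01]
      simp only [dg_00, dg_01, dg_10, dg_11]
      ring
    · simp only [Fin.zero_eta, Fin.mk_one, Fin.isValue]
      refine tendsto_const_nhds.congr fun n => ?_
      rw [mul_assoc, mul_10, mul_00, mul_10, inv_10, inv_11, h00, h10]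
      simp
    · simp only [Fin.mk_one, Fin.isValue]
      refine tendsto_const_nhds.congr fun n => ?_
      rw [mul_assoc, mul_11, mul_01, mul_11, inv_10, inv_11, h11]
      have : (((n : ℝ) + 1 : ℝ) : ℂ) ≠ 0 := by
        exact_mod_cast (by positivity : (n : ℝ) + 1 ≠ 0)
      simp only [dg_00, dg_01, dg_10, dg_11]
      field_simp
      simp
  obtain ⟨n, hn⟩ := (key.eventually (show ∀ᶠ x in 𝓝 (1 : G), x ∈ W from hW)).exists
  refine ⟨p * dg ((n : ℝ) + 1) (by positivity), ?_⟩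
  have e : (p * dg ((n : ℝ) + 1) (by positivity))⁻¹ * γ *
      (p * dg ((n : ℝ) + 1) (by positivity)) =
      (dg ((n : ℝ) + 1) (by positivity))⁻¹ * δ * dg ((n : ℝ) + 1) (by positivity) := by
    rw [hδ]
    group
  rw [e]
  exact hn

lemma trace_conj (p γ : G) : (p⁻¹ * γ * p) 0 0 + (p⁻¹ * γ * p) 1 1 = γ 0 0 + γ 1 1 := by
  rw [mul_assoc, mul_00, mul_11, mul_00, mul_10, mul_01, mul_11, inv_00, inv_01, inv_10, inv_11]
  have := det_eq p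
  linear_combination (γ 0 0 + γ 1 1) * this

/-- An element with trace two is trivial. -/
lemma eq_one_of_trace (h : Hyp Γ K) {γ : G} (hγ : γ ∈ Γ) (ht : γ 0 0 + γ 1 1 = 2) :
    γ = 1 := by
  have hdet := det_eq γ
  -- a fixed vector
  obtain ⟨v, hv, hfix⟩ : ∃ v : Fin 2 → ℂ, v ≠ 0 ∧ γ.1 *ᵥ v = (1 : ℂ) • v := by
    by_cases hc : γ 1 0 = 0
    · refine ⟨![1, 0], ?_, ?_⟩
      · intro h0
        have := congrFun h0 0
        simp at this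
      · have h1 : γ 0 0 = 1 := by
          rw [hc] at hdet
          have e1 : γ 1 1 = 2 - γ 0 0 := by linear_combination ht
          rw [e1] at hdet
          have e2 : (γ 0 0 - 1) ^ 2 = 0 := by linear_combination -hdet
          have e3 := pow_eq_zero_iff (two_ne_zero) |>.1 e2
          linear_combination e3
        refine ext_v ?_ ?_
        · rw [mv0]
          simp [h1]
        · rw [mv1]
          simp [hc]
    · refine ⟨![γ 0 0 - γ 1 1, 2 * γ 1 0], ?_, ?_⟩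
      · intro h0
        have := congrFun h0 1
        simp [hc] at this
      · refine ext_v ?_ ?_
        · rw [mv0]
          simp only [cons_val_zero, cons_val_one, Pi.smul_apply, smul_eq_mul, one_mul]
          have e1 : γ 1 1 = 2 - γ 0 0 := by linear_combination ht
          rw [e1] at hdet ⊢
          linear_combination (-2) * hdet
        · rw [mv1]
          simp only [cons_val_zero, cons_val_one, Pi.smul_apply, smul_eq_mul, one_mul]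
          linear_combination (γ 1 0) * ht
  obtain ⟨p, hp0, hp1⟩ := exists_frame hv
  have h10 := conj_10 hp0 hp1 hfix
  refine eq_one_of_conj h hγ (conj_small (p := p) h10 ?_)
  have h1 := trace_conj p γ
  have h2 := det_eq (p⁻¹ * γ * p)
  rw [h10, mul_zero, sub_zero] at h2
  rw [ht] at h1
  have e1 : (p⁻¹ * γ * p) 1 1 = 2 - (p⁻¹ * γ * p) 0 0 := by linear_combination h1
  rw [e1] at h2
  have e2 : ((p⁻¹ * γ * p) 0 0 - 1) ^ 2 = 0 := by linear_combination -h2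
  have e3 := pow_eq_zero_iff (two_ne_zero) |>.1 e2
  linear_combination e3

end E3

open E3

theorem no_parabolic (h : Hyp Γ K) {γ : G} (hγ : γ ∈ Γ) (ht : (γ 0 0 + γ 1 1) ^ 2 = 4) :
    γ = 1 ∨ γ = -1 := by
  have hdet := det_eq γ
  have h2 : γ * γ = 1 := by
    refine eq_one_of_trace h (Γ.mul_mem hγ hγ) ?_
    rw [mul_00, mul_11]
    linear_combination ht - 2 * hdet
  have e00 : γ 0 0 * γ 0 0 + γ 0 1 * γ 1 0 = 1 := by
    rw [← mul_00, h2]; simp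
  have e01 : γ 0 0 * γ 0 1 + γ 0 1 * γ 1 1 = 0 := by
    rw [← mul_01, h2]; simp
  have e10 : γ 1 0 * γ 0 0 + γ 1 1 * γ 1 0 = 0 := by
    rw [← mul_10, h2]; simp
  have hne : γ 0 0 + γ 1 1 ≠ 0 := by
    intro h0
    rw [h0] at ht
    norm_num at ht
  have h01 : γ 0 1 = 0 := by
    have : (γ 0 0 + γ 1 1) * γ 0 1 = 0 := by linear_combination e01
    exact (mul_eq_zero.1 this).resolve_left hne
  have h10 : γ 1 0 = 0 := by
    have : (γ 0 0 + γ 1 1) * γ 1 0 = 0 := by linear_combination e10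
    exact (mul_eq_zero.1 this).resolve_left hne
  rw [h01, zero_mul, add_zero] at e00
  rw [h01, zero_mul, sub_zero] at hdet
  have h00 : γ 0 0 = 1 ∨ γ 0 0 = -1 := by
    have : (γ 0 0 - 1) * (γ 0 0 + 1) = 0 := by linear_combination e00
    rcases mul_eq_zero.1 this with h | h
    · left; linear_combination h
    · right; linear_combination h
  rcases h00 with h00 | h00
  · left
    have h11 : γ 1 1 = 1 := by rw [h00] at hdet; linear_combination hdet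
    refine ext_G ?_ ?_ ?_ ?_
    · simp [h00]
    · simp [h01]
    · simp [h10]
    · simp [h11]
  · right
    have h11 : γ 1 1 = -1 := by rw [h00] at hdet; linear_combination -hdet
    refine ext_G ?_ ?_ ?_ ?_
    · simp [h00]
    · simp [h01]
    · simp [h10]
    · simp [h11]

namespace E3

/-- Bounds for the entries of a compact set, in the frame `p`. -/
lemma bound {C : Set G} (hC : IsCompact C) (p : G) :
    ∃ B : ℝ, 0 ≤ B ∧ ∀ c ∈ C, ∀ i j, ‖(p⁻¹ * c) i j‖ ≤ B := by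
  have h1 : ∀ i j : Fin 2, ∃ B : ℝ, ∀ c ∈ C, ‖(p⁻¹ * c) i j‖ ≤ B := fun i j =>
    hC.exists_bound_of_continuousOn (f := fun c : G => (p⁻¹ * c) i j)
      ((continuous_entry i j).comp (continuous_const.mul continuous_id)).continuousOn
  choose B hB using h1
  refine ⟨∑ i, ∑ j, |B i j|, Finset.sum_nonneg fun i _ => Finset.sum_nonneg fun j _ =>
    abs_nonneg _, fun c hc i j => ?_⟩
  refine (hB i j c hc).trans ((le_abs_self _).trans ?_)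
  refine le_trans ?_ (Finset.single_le_sum (f := fun i => ∑ j, |B i j|)
    (fun i _ => Finset.sum_nonneg fun j _ => abs_nonneg _) (Finset.mem_univ i))
  exact Finset.single_le_sum (f := fun j => |B i j|) (fun j _ => abs_nonneg _)
    (Finset.mem_univ j)

/-- A commutator of upper triangular elements has trace two. -/
lemma trace_comm {δ δ₀ : G} (h1 : δ 1 0 = 0) (h2 : δ₀ 1 0 = 0) :
    ((δ * δ₀) * (δ⁻¹ * δ₀⁻¹)) 0 0 + ((δ * δ₀) * (δ⁻¹ * δ₀⁻¹)) 1 1 = 2 := by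
  have d1 := det_eq δ
  have d2 := det_eq δ₀
  rw [h1, mul_zero, sub_zero] at d1
  rw [h2, mul_zero, sub_zero] at d2
  rw [mul_00, mul_11, mul_00, mul_00, mul_01, mul_01, mul_10, mul_10, mul_11, mul_11, inv_00,
    inv_01, inv_10, inv_11, inv_00, inv_01, inv_10, inv_11, h1, h2]
  have e : δ 0 0 * δ₀ 0 0 * (δ 1 1 * δ₀ 1 1) = 1 := by
    calc δ 0 0 * δ₀ 0 0 * (δ 1 1 * δ₀ 1 1) = (δ 0 0 * δ 1 1) * (δ₀ 0 0 * δ₀ 1 1) := by ring
      _ = 1 := by rw [d1, d2, one_mul]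
  linear_combination 2 * e

end E3

theorem no_fixed_direction (h : Hyp Γ K) {v : Fin 2 → ℂ} (hv : v ≠ 0) :
    ∃ γ ∈ Γ, ∀ c : ℂ, γ.1 *ᵥ v ≠ c • v := by
  by_contra hcon
  push Not at hcon
  obtain ⟨C, hC, hcoc⟩ := h.coc
  obtain ⟨p, hp0, hp1⟩ := exists_frame hv
  have htri : ∀ p : G, p 0 0 = v 0 → p 1 0 = v 1 → ∀ γ ∈ Γ, (p⁻¹ * γ * p) 1 0 = 0 := by
    intro p hp0 hp1 γ hγ
    obtain ⟨c, hc⟩ := hcon γ hγ
    exact conj_10 hp0 hp1 hc
  -- an element which is not elliptic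
  obtain ⟨γ₀, hγ₀, hl⟩ : ∃ γ₀ ∈ Γ, ‖(p⁻¹ * γ₀ * p) 0 0‖ ≠ 1 := by
    by_contra hc
    push Not at hc
    obtain ⟨B, hB0, hB⟩ := bound hC p
    have hs : B + 1 ≠ 0 := by positivity
    obtain ⟨γ, hγ, hγC⟩ := hcoc (p * dg (B + 1) hs)
    have h1 := hB _ hγC 0 0
    have h2 : p⁻¹ * (γ * (p * dg (B + 1) hs)) = (p⁻¹ * γ * p) * dg (B + 1) hs := by group
    rw [h2, mul_00, dg_00, dg_10, mul_zero, add_zero, norm_mul, hc γ hγ, one_mul,
      Complex.norm_real, Real.norm_of_nonneg (by positivity)] at h1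
    linarith
  -- a frame in which it is diagonal
  obtain ⟨δ₀, hδ₀⟩ : ∃ δ₀ : G, δ₀ = p⁻¹ * γ₀ * p := ⟨_, rfl⟩
  have h10 : δ₀ 1 0 = 0 := by rw [hδ₀]; exact htri p hp0 hp1 γ₀ hγ₀
  have hdet₀ := det_eq δ₀
  rw [h10, mul_zero, sub_zero] at hdet₀
  rw [← hδ₀] at hl
  have hl0 : δ₀ 0 0 ≠ 0 := left_ne_zero_of_mul_eq_one hdet₀
  have hne : δ₀ 1 1 - δ₀ 0 0 ≠ 0 := by
    intro h0
    apply hl
    have e1 : δ₀ 1 1 = δ₀ 0 0 := by linear_combination h0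
    rw [e1] at hdet₀
    have e2 : ‖δ₀ 0 0‖ * ‖δ₀ 0 0‖ = 1 := by rw [← norm_mul, hdet₀, norm_one]
    have e3 := norm_nonneg (δ₀ 0 0)
    nlinarith
  obtain ⟨y, hy⟩ : ∃ y : ℂ, δ₀ 0 1 = y * (δ₀ 1 1 - δ₀ 0 0) :=
    ⟨δ₀ 0 1 / (δ₀ 1 1 - δ₀ 0 0), by field_simp⟩
  obtain ⟨p', hp'⟩ : ∃ p' : G, p' = p * up y := ⟨_, rfl⟩
  have hp'0 : p' 0 0 = v 0 := by rw [hp', mul_00]; simp [hp0]
  have hp'1 : p' 1 0 = v 1 := by rw [hp', mul_10]; simp [hp1]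
  obtain ⟨δ₁, hδ₁⟩ : ∃ δ₁ : G, δ₁ = p'⁻¹ * γ₀ * p' := ⟨_, rfl⟩
  have hδ₁' : δ₁ = (up y)⁻¹ * (δ₀ * up y) := by
    rw [hδ₁, hδ₀, hp']
    group
  have h1_10 : δ₁ 1 0 = 0 := by rw [hδ₁]; exact htri p' hp'0 hp'1 γ₀ hγ₀
  have h1_01 : δ₁ 0 1 = 0 := by
    rw [hδ₁', mul_01, mul_01, mul_11, inv_00, inv_01, h10]
    simp only [up_00, up_01, up_10, up_11]
    linear_combination hy
  have h1_00 : δ₁ 0 0 = δ₀ 0 0 := by
    rw [hδ₁', mul_00, mul_00, mul_10, inv_00, inv_01, h10]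
    simp
  have h1_11 : δ₁ 1 1 = δ₀ 1 1 := by
    rw [hδ₁', mul_11, mul_01, mul_11, inv_10, inv_11, h10]
    simp
  -- all elements are diagonal
  have hdiag : ∀ γ ∈ Γ, (p'⁻¹ * γ * p') 0 1 = 0 := by
    intro γ hγ
    obtain ⟨δ, hδ⟩ : ∃ δ : G, δ = p'⁻¹ * γ * p' := ⟨_, rfl⟩
    have h2_10 : δ 1 0 = 0 := by rw [hδ]; exact htri p' hp'0 hp'1 γ hγ
    rw [← hδ]
    have hκ : (γ * γ₀) * (γ⁻¹ * γ₀⁻¹) = 1 := by
      refine eq_one_of_trace h (Γ.mul_mem (Γ.mul_mem hγ hγ₀)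
        (Γ.mul_mem (Γ.inv_mem hγ) (Γ.inv_mem hγ₀))) ?_
      rw [← trace_conj p' _]
      have e : p'⁻¹ * ((γ * γ₀) * (γ⁻¹ * γ₀⁻¹)) * p' = (δ * δ₁) * (δ⁻¹ * δ₁⁻¹) := by
        rw [hδ, hδ₁]
        group
      rw [e]
      exact trace_comm h2_10 h1_10
    have hcomm : δ * δ₁ = δ₁ * δ := by
      have e1 : γ * γ₀ = γ₀ * γ := by
        have := congrArg (fun x => x * (γ₀ * γ)) hκ
        simp only [one_mul] at this
        rw [← this]
        group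
      have e2 : δ * δ₁ = p'⁻¹ * (γ * γ₀) * p' := by rw [hδ, hδ₁]; group
      have e3 : δ₁ * δ = p'⁻¹ * (γ₀ * γ) * p' := by rw [hδ, hδ₁]; group
      rw [e2, e3, e1]
    have e4 : (δ * δ₁) 0 1 = (δ₁ * δ) 0 1 := by rw [hcomm]
    rw [mul_01, mul_01, h1_01, h1_00, h1_11, mul_zero, zero_add, zero_mul, add_zero] at e4
    have e5 : δ 0 1 * (δ₀ 1 1 - δ₀ 0 0) = 0 := by linear_combination e4
    exact (mul_eq_zero.1 e5).resolve_right hne
  obtain ⟨B, hB0, hB⟩ := bound hC p'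
  obtain ⟨γ, hγ, hγC⟩ := hcoc (p' * up ((B ^ 2 + 1 : ℝ) : ℂ))
  have h2 : p'⁻¹ * (γ * (p' * up ((B ^ 2 + 1 : ℝ) : ℂ))) =
      (p'⁻¹ * γ * p') * up ((B ^ 2 + 1 : ℝ) : ℂ) := by group
  have hb1 := hB _ hγC 0 1
  have hb2 := hB _ hγC 1 1
  have h3 := htri p' hp'0 hp'1 γ hγ
  have h4 := hdiag γ hγ
  have h5 := det_eq (p'⁻¹ * γ * p')
  rw [h3, mul_zero, sub_zero] at h5
  rw [h2, mul_01, h4] at hb1
  rw [h2, mul_11, h3] at hb2
  simp only [up_01, up_11, zero_mul, add_zero, zero_add, mul_one] at hb1 hb2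
  rw [norm_mul, Complex.norm_real, Real.norm_of_nonneg (by positivity)] at hb1
  have h6 : ‖(p'⁻¹ * γ * p') 0 0‖ * ‖(p'⁻¹ * γ * p') 1 1‖ = 1 := by
    rw [← norm_mul, h5, norm_one]
  have h7 := mul_le_mul hb1 hb2 (norm_nonneg _) hB0
  have h8 : ‖(p'⁻¹ * γ * p') 0 0‖ * (B ^ 2 + 1) * ‖(p'⁻¹ * γ * p') 1 1‖ = B ^ 2 + 1 := by
    calc _ = (‖(p'⁻¹ * γ * p') 0 0‖ * ‖(p'⁻¹ * γ * p') 1 1‖) * (B ^ 2 + 1) := by ring
      _ = B ^ 2 + 1 := by rw [h6, one_mul]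
  rw [h8] at h7
  nlinarith

namespace E3

/-- A frame with given second column. -/
lemma exists_frame2 {v : Fin 2 → ℂ} (hv : v ≠ 0) : ∃ p : G, p 0 1 = v 0 ∧ p 1 1 = v 1 := by
  by_cases h0 : v 0 = 0
  · have h1 : v 1 ≠ 0 := fun h1 => hv (ext_v h0 h1)
    refine ⟨⟨!![(v 1)⁻¹, v 0; 0, v 1], ?_⟩, rfl, rfl⟩
    rw [Matrix.det_fin_two_of]
    field_simp
    ring
  · refine ⟨⟨!![0, v 0; -(v 0)⁻¹, v 1], ?_⟩, rfl, rfl⟩
    rw [Matrix.det_fin_two_of]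
    field_simp
    ring

lemma continuous_mv (e : Fin 2 → ℂ) (i : Fin 2) :
    Continuous fun q : G => (q⁻¹.1 *ᵥ e) i := by
  have h1 : ∀ j, Continuous fun q : G => q⁻¹ i j := fun j =>
    (continuous_entry i j).comp continuous_inv
  have h2 : (fun q : G => (q⁻¹.1 *ᵥ e) i) = fun q : G => q⁻¹ i 0 * e 0 + q⁻¹ i 1 * e 1 := by
    funext q
    simp [Matrix.mulVec, dotProduct, Fin.sum_univ_two]
  rw [h2]
  exact ((h1 0).mul continuous_const).add ((h1 1).mul continuous_const)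

/-- A closed cone which misses the second column of a frame. -/
lemma cone {E : Set (Fin 2 → ℂ)} (hE : IsClosed E) (hs : ∀ v ∈ E, ∀ c : ℂ, c • v ∈ E)
    {v0 : Fin 2 → ℂ} (hv0 : v0 ∉ E) {g : G} (hg0 : g 0 1 = v0 0) (hg1 : g 1 1 = v0 1) :
    ∃ κ : ℝ, 0 ≤ κ ∧ ∀ w : Fin 2 → ℂ, g.1 *ᵥ w ∈ E → ‖w 1‖ ≤ κ * ‖w 0‖ := by
  obtain ⟨ε, hε, hball⟩ := Metric.isOpen_iff.1 hE.isOpen_compl v0 hv0
  set u : Fin 2 → ℂ := ![g 0 0, g 1 0] with hu
  refine ⟨(‖u‖ + 1) / ε, by positivity, fun w hw => ?_⟩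
  by_contra hc
  push Not at hc
  have hw1 : w 1 ≠ 0 := by
    intro h0
    rw [h0, norm_zero] at hc
    have : 0 ≤ (‖u‖ + 1) / ε * ‖w 0‖ := by positivity
    linarith
  have hw1' : 0 < ‖w 1‖ := norm_pos_iff.2 hw1
  have h1 : (w 1)⁻¹ • (g.1 *ᵥ w) = v0 + (w 0 / w 1) • u := by
    refine ext_v ?_ ?_
    · simp only [Pi.smul_apply, Pi.add_apply, smul_eq_mul, mv0, hg0, hu, cons_val_zero]
      field_simp
      ring
    · simp only [Pi.smul_apply, Pi.add_apply, smul_eq_mul, mv1, hg1, hu, cons_val_one,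
        cons_val_fin_one]
      field_simp
      ring
  have h2 := hs _ hw (w 1)⁻¹
  rw [h1] at h2
  refine hball ?_ h2
  rw [Metric.mem_ball, dist_eq_norm, add_sub_cancel_left, norm_smul, norm_div,
    div_mul_eq_mul_div, div_lt_iff₀ hw1']
  rw [div_mul_eq_mul_div, div_lt_iff₀ hε] at hc
  have h3 := norm_nonneg (w 0)
  have h4 := norm_nonneg u
  calc ‖w 0‖ * ‖u‖ ≤ (‖u‖ + 1) * ‖w 0‖ := by nlinarith
    _ < ‖w 1‖ * ε := hc
    _ = ε * ‖w 1‖ := mul_comm _ _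

end E3

theorem minimal (h : Hyp Γ K) {E : Set (Fin 2 → ℂ)} (hE : IsClosed E)
    (hs : ∀ v ∈ E, ∀ c : ℂ, c • v ∈ E) (hi : ∀ γ ∈ Γ, ∀ v ∈ E, γ.1 *ᵥ v ∈ E)
    (hne : ∃ v ∈ E, v ≠ 0) : E = univ := by
  by_contra hcon
  obtain ⟨v0, hv0⟩ : ∃ v0, v0 ∉ E := (ne_univ_iff_exists_notMem E).1 hcon
  obtain ⟨v1, hv1, hv1'⟩ := hne
  have h0 : v0 ≠ 0 := by
    rintro rfl
    apply hv0
    have := hs v1 hv1 0
    rwa [zero_smul] at this
  obtain ⟨g, hg0, hg1⟩ := exists_frame2 h0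
  obtain ⟨κ, hκ0, hκ⟩ := cone hE hs hv0 hg0 hg1
  obtain ⟨C, hC, hcoc⟩ := h.coc
  let r : ℕ → ℝ := fun n => 1 / ((n : ℝ) + 1)
  have hr0 : ∀ n, 0 < r n := fun n => by simp only [r]; positivity
  let S : ℕ → Set G := fun n => C ∩ {q | ∀ e ∈ E,
    ‖(q⁻¹.1 *ᵥ e) 1‖ ≤ κ * (r n * r n) * ‖(q⁻¹.1 *ᵥ e) 0‖}
  have hScl' : ∀ n, IsClosed {q : G | ∀ e ∈ E,
      ‖(q⁻¹.1 *ᵥ e) 1‖ ≤ κ * (r n * r n) * ‖(q⁻¹.1 *ᵥ e) 0‖} := by
    intro n
    have : {q : G | ∀ e ∈ E, ‖(q⁻¹.1 *ᵥ e) 1‖ ≤ κ * (r n * r n) * ‖(q⁻¹.1 *ᵥ e) 0‖} =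
        ⋂ e ∈ E, {q : G | ‖(q⁻¹.1 *ᵥ e) 1‖ ≤ κ * (r n * r n) * ‖(q⁻¹.1 *ᵥ e) 0‖} := by
      ext q
      simp only [Set.mem_ofPred_eq, mem_iInter]
    rw [this]
    refine isClosed_biInter fun e _ => ?_
    exact isClosed_le (continuous_mv e 1).norm (continuous_const.mul (continuous_mv e 0).norm)
  have hScl : ∀ n, IsClosed (S n) := fun n => hC.isClosed.inter (hScl' n)
  have hS0 : IsCompact (S 0) := hC.inter_right (hScl' 0)
  have hSd : ∀ n, S (n + 1) ⊆ S n := by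
    rintro n q ⟨hq1, hq2⟩
    refine ⟨hq1, fun e he => (hq2 e he).trans ?_⟩
    refine mul_le_mul_of_nonneg_right ?_ (norm_nonneg _)
    refine mul_le_mul_of_nonneg_left ?_ hκ0
    have h1 : r (n + 1) ≤ r n := by
      simp only [r]
      refine one_div_le_one_div_of_le (by positivity) ?_
      push_cast
      linarith
    exact mul_le_mul h1 h1 (hr0 _).le (hr0 n).le
  have hSn : ∀ n, (S n).Nonempty := by
    intro n
    obtain ⟨γ, hγ, hγC⟩ := hcoc (g * dg (r n) (hr0 n).ne')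
    refine ⟨_, hγC, fun e he => ?_⟩
    obtain ⟨w, hw⟩ : ∃ w : Fin 2 → ℂ, w = g⁻¹.1 *ᵥ (γ⁻¹.1 *ᵥ e) := ⟨_, rfl⟩
    have hgw : g.1 *ᵥ w ∈ E := by
      have : g.1 *ᵥ w = γ⁻¹.1 *ᵥ e := by
        rw [hw, ← mv_mul, mul_inv_cancel]
        simp
      rw [this]
      exact hi _ (Γ.inv_mem hγ) e he
    have h1 := hκ w hgw
    have h2 : (γ * (g * dg (r n) (hr0 n).ne'))⁻¹.1 *ᵥ e =
        (dg (r n) (hr0 n).ne')⁻¹.1 *ᵥ w := by
      rw [_root_.mul_inv_rev, _root_.mul_inv_rev, hw, ← mv_mul, ← mv_mul, mul_assoc]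
    rw [h2, mv0, mv1, inv_00, inv_01, inv_10, inv_11]
    simp only [dg_00, dg_01, dg_10, dg_11, neg_zero, zero_mul, add_zero, zero_add]
    rw [norm_mul, norm_mul, norm_inv, Complex.norm_real, Real.norm_of_nonneg (hr0 n).le]
    have h3 := hr0 n
    have h4 : κ * (r n * r n) * ((r n)⁻¹ * ‖w 0‖) = r n * (κ * ‖w 0‖) := by
      field_simp
    rw [h4]
    exact mul_le_mul_of_nonneg_left h1 h3.le
  obtain ⟨q, hq⟩ := IsCompact.nonempty_iInter_of_sequence_nonempty_isCompact_isClosed S hSd hSn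
    hS0 hScl
  rw [mem_iInter] at hq
  have hq1 : ∀ e ∈ E, (q⁻¹.1 *ᵥ e) 1 = 0 := by
    intro e he
    have hlim : Tendsto (fun n => κ * (r n * r n) * ‖(q⁻¹.1 *ᵥ e) 0‖) atTop (𝓝 0) := by
      have h1 : Tendsto r atTop (𝓝 0) := tendsto_one_div_add_atTop_nhds_zero_nat
      have h2 := ((h1.mul h1).const_mul κ).mul_const ‖(q⁻¹.1 *ᵥ e) 0‖
      simpa using h2
    have h3 := ge_of_tendsto' hlim (fun n => (hq n).2 e he)
    exact norm_le_zero_iff.1 h3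
  obtain ⟨γ, hγ, hγc⟩ := no_fixed_direction h hv1'
  have ha := hq1 v1 hv1
  have hb := hq1 _ (hi γ hγ v1 hv1)
  obtain ⟨a, haeq⟩ : ∃ a, a = (q⁻¹.1 *ᵥ v1) 0 := ⟨_, rfl⟩
  obtain ⟨b, hbeq⟩ : ∃ b, b = (q⁻¹.1 *ᵥ (γ.1 *ᵥ v1)) 0 := ⟨_, rfl⟩
  have hqv : ∀ e : Fin 2 → ℂ, q.1 *ᵥ (q⁻¹.1 *ᵥ e) = e := by
    intro e
    rw [← mv_mul, mul_inv_cancel]
    simp
  have ha0 : a ≠ 0 := by
    intro h1
    apply hv1'
    rw [← hqv v1]
    have : q⁻¹.1 *ᵥ v1 = 0 := ext_v (by rw [← haeq, h1]; rfl) (by rw [ha]; rfl)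
    rw [this, Matrix.mulVec_zero]
  apply hγc (b / a)
  rw [← hqv (γ.1 *ᵥ v1)]
  have h1 : q⁻¹.1 *ᵥ (γ.1 *ᵥ v1) = (b / a) • (q⁻¹.1 *ᵥ v1) := by
    refine ext_v ?_ ?_
    · rw [Pi.smul_apply, ← haeq, ← hbeq, smul_eq_mul, div_mul_cancel₀ _ ha0]
    · rw [Pi.smul_apply, ha, hb, smul_zero]
  rw [h1, Matrix.mulVec_smul, hqv]

end Pool.Agent.H90.WC
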